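import Pool.Agent.MP_f6b137_pr.H74.Base

/-! Covariance of a thin sign change event with a quadratic form. -/

namespace Pool.Agent.MP_f6b137_pr.H80

open MeasureTheory ProbabilityTheory Filter Set Pool.Agent.MP_f6b137_pr.H74
open scoped Real RealInnerProductSpace

noncomputable section

abbrev g1 : Measure ℝ := gaussianReal 0 1

abbrev g2 : Measure (ℝ × ℝ) := g1.prod g1

/-- the indicator of a double cone -/
def cone (τ : ℝ) (q : ℝ × ℝ) : ℝ := if q.1 ^ 2 < τ ^ 2 * q.2 ^ 2 then 1 else 0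

lemma measurable_cone (τ : ℝ) : Measurable (cone τ) :=
  Measurable.ite (measurableSet_lt (by fun_prop) (by fun_prop)) measurable_const measurable_const

lemma cone_nonneg (τ : ℝ) (q : ℝ × ℝ) : 0 ≤ cone τ q := by unfold cone; split_ifs <;> norm_num

lemma abs_cone_le (τ : ℝ) (q : ℝ × ℝ) : |cone τ q| ≤ 1 := by unfold cone; split_ifs <;> norm_num

lemma memLp_cone (τ : ℝ) : MemLp (cone τ) 2 g2 := memLp_bdd (measurable_cone τ) 1 (abs_cone_le τ)

lemma holder : ENNReal.HolderTriple 4 4 2 :=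
  ⟨by rw [show (4 : ENNReal) = 2 * 2 by norm_num, ENNReal.mul_inv (by simp) (by simp), ← mul_add,
    ENNReal.inv_two_add_inv_two, mul_one]⟩

lemma memLp_sq : MemLp (fun x : ℝ => x * x) 2 g1 := by
  have := holder
  have h : MemLp id 4 g1 := by simpa using memLp_id_gaussianReal (μ := 0) (v := 1) 4
  exact h.mul h

lemma int_sq : ∫ x, x * x ∂g1 = 1 := by
  have h := variance_fun_id_gaussianReal (μ := 0) (v := 1)
  rw [variance_eq_integral measurable_id'.aemeasurable] at h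
  simpa [sq] using h

lemma g1_le (S : Set ℝ) : g1 S ≤ volume S := by
  rw [gaussianReal_apply _ one_ne_zero, ← setLIntegral_one]
  refine lintegral_mono fun x => ENNReal.ofReal_le_one.2 (mul_le_one₀ ?_ (Real.exp_pos _).le ?_)
  · refine inv_le_one_of_one_le₀ (Real.one_le_sqrt.2 ?_)
    have := Real.pi_gt_three
    simp only [NNReal.coe_one]
    linarith
  · refine Real.exp_le_one_iff.2 ?_
    simp only [NNReal.coe_one]
    nlinarith [sq_nonneg (x - 0)]

/-- a lower bound for the density -/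
def c3 : ℝ := gaussianPDFReal 0 1 3

lemma c3_pos : 0 < c3 := gaussianPDFReal_pos _ _ _ one_ne_zero

lemma g1_ge {a b : ℝ} (ha : 0 ≤ a) (hab : a ≤ b) (hb : b ≤ 3) : c3 * (b - a) ≤ g1.real (Ico a b) := by
  rw [measureReal_def, ← ENNReal.ofReal_le_iff_le_toReal (measure_ne_top _ _),
    gaussianReal_apply _ one_ne_zero, ENNReal.ofReal_mul c3_pos.le, ← Real.volume_Ico,
    ← setLIntegral_const]
  refine setLIntegral_mono' measurableSet_Ico fun x hx => ENNReal.ofReal_le_ofReal ?_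
  refine mul_le_mul_of_nonneg_left (Real.exp_le_exp.2 ?_) (by positivity)
  simp only [NNReal.coe_one]
  nlinarith [hx.1, hx.2]

lemma int_cone {τ : ℝ} (hτ : 0 ≤ τ) : ∫ q, cone τ q ∂g2 ≤ 2 * τ := by
  have hi : Integrable (cone τ) g2 := (memLp_cone τ).integrable one_le_two
  have h2 := memLp_sq.integrable one_le_two
  have e : 2 * τ = ∫ y, τ * (1 + y * y) ∂g1 := by
    rw [integral_const_mul, integral_add (integrable_const _) h2, int_sq]
    simp
    ring
  rw [integral_prod_symm _ hi, e]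
  refine integral_mono hi.integral_prod_right (((integrable_const _).add h2).const_mul _) fun y => ?_
  have e2 : (fun x => cone τ (x, y)) = (Ioo (-(τ * |y|)) (τ * |y|)).indicator 1 := by
    funext x
    rw [cone, indicator_apply]
    refine if_congr ?_ rfl rfl
    rw [mem_Ioo, ← abs_lt, ← mul_pow, sq_lt_sq, abs_mul, abs_of_nonneg hτ]
  have h3 := ENNReal.toReal_mono (by simp) (g1_le (Ioo (-(τ * |y|)) (τ * |y|)))
  rw [Real.volume_Ioo, ENNReal.toReal_ofReal (by have := mul_nonneg hτ (abs_nonneg y); linarith)]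
    at h3
  simp only [e2, integral_indicator_one measurableSet_Ioo]
  refine h3.trans ?_
  nlinarith [mul_nonneg hτ (sq_nonneg (|y| - 1)), abs_mul_abs_self y]

/-- the first covariance -/
def k1 (τ : ℝ) : ℝ := cov[cone τ, fun q => q.1 * q.1; g2]

/-- the second covariance -/
def k2 (τ : ℝ) : ℝ := cov[cone τ, fun q => q.2 * q.2; g2]

lemma int_fst : ∫ q, q.1 * q.1 ∂g2 = 1 := by
  simpa [int_sq] using integral_prod_mul (μ := g1) (ν := g1) (fun x => x * x) fun _ => (1 : ℝ)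

lemma int_snd : ∫ q, q.2 * q.2 ∂g2 = 1 := by
  simpa [int_sq] using integral_prod_mul (μ := g1) (ν := g1) (fun _ => (1 : ℝ)) fun x => x * x

lemma abs_k1 {τ : ℝ} (h0 : 0 ≤ τ) (h1 : τ ≤ 1) : |k1 τ| ≤ 2 * τ := by
  have h2 : ∫ q, (cone τ * fun q : ℝ × ℝ => q.1 * q.1) q ∂g2 ≤ ∫ q, τ ^ 2 * (q.2 * q.2) ∂g2 := by
    refine integral_mono ((memLp_cone τ).integrable_mul (memLp_sq.comp_fst g1))
      (((memLp_sq.comp_snd g1).integrable one_le_two).const_mul _) fun q => ?_
    simp only [Pi.mul_apply, cone]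
    split_ifs with h <;> nlinarith [mul_nonneg (sq_nonneg τ) (mul_self_nonneg q.2)]
  have h3 : 0 ≤ ∫ q, (cone τ * fun q : ℝ × ℝ => q.1 * q.1) q ∂g2 :=
    integral_nonneg fun q => mul_nonneg (cone_nonneg τ q) (mul_self_nonneg _)
  have h4 : 0 ≤ ∫ q, cone τ q ∂g2 := integral_nonneg (cone_nonneg τ)
  rw [integral_const_mul, int_snd] at h2
  rw [k1, covariance_eq_sub (memLp_cone τ) (memLp_sq.comp_fst g1), int_fst, abs_le]
  constructor <;> nlinarith [int_cone h0]

lemma pointwise {τ : ℝ} (h0 : 0 ≤ τ) (x y : ℝ) :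
    cone τ (x, 1) * (y * y - 1) + 3 * ((Ico τ (2 * τ)).indicator 1 x *
      (Ico (2 : ℝ) 3).indicator (1 : ℝ → ℝ) y) ≤ cone τ (x, y) * (y * y) - cone τ (x, y) := by
  have t := sq_nonneg τ
  by_cases hA : x ∈ Ico τ (2 * τ) ∧ y ∈ Ico (2 : ℝ) 3
  · obtain ⟨⟨a, b⟩, c, d⟩ := id hA
    have h1 : ¬ x ^ 2 < τ ^ 2 * 1 ^ 2 := by nlinarith
    have h2 : x ^ 2 < τ ^ 2 * y ^ 2 := by
      have : τ ^ 2 * 4 ≤ τ ^ 2 * y ^ 2 := mul_le_mul_of_nonneg_left (by nlinarith) t
      nlinarith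
    simp only [cone, indicator_of_mem hA.1, indicator_of_mem hA.2, if_neg h1, if_pos h2,
      Pi.one_apply]
    nlinarith
  · have h1 : (Ico τ (2 * τ)).indicator 1 x * (Ico (2 : ℝ) 3).indicator (1 : ℝ → ℝ) y = 0 := by
      rcases not_and_or.1 hA with h | h <;> simp [indicator_of_notMem h]
    simp only [h1, cone, one_pow, mul_one]
    split_ifs with a b b
    · linarith
    · by_contra h
      nlinarith
    · by_contra h
      nlinarith
    · linarith

lemma le_k2 {τ : ℝ} (h0 : 0 ≤ τ) (h1 : τ ≤ 1) : 3 * c3 ^ 2 * τ ≤ k2 τ := by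
  have i1 := (memLp_cone τ).integrable_mul (memLp_sq.comp_snd g1)
  have i2 : Integrable (cone τ) g2 := (memLp_cone τ).integrable one_le_two
  have i3 := memLp_sq.integrable one_le_two
  have j1 : Integrable (fun q : ℝ × ℝ => cone τ (q.1, 1) * (q.2 * q.2 - 1)) g2 :=
    Integrable.mul_prod ((memLp_bdd ((measurable_cone τ).comp measurable_prodMk_right) 1
      fun x => abs_cone_le τ _).integrable one_le_two) (i3.sub (integrable_const _))
  have j2 : Integrable (fun q : ℝ × ℝ => (Ico τ (2 * τ)).indicator 1 q.1 *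
      (Ico (2 : ℝ) 3).indicator (1 : ℝ → ℝ) q.2) g2 :=
    Integrable.mul_prod ((integrable_const _).indicator measurableSet_Ico)
      ((integrable_const _).indicator measurableSet_Ico)
  have h2 := integral_mono (j1.add (j2.const_mul 3)) (i1.sub i2) fun q => pointwise h0 q.1 q.2
  rw [integral_add' j1 (j2.const_mul 3), integral_sub' i1 i2, integral_const_mul,
    integral_prod_mul (fun x => cone τ (x, 1)) fun y => y * y - 1,
    integral_prod_mul ((Ico τ (2 * τ)).indicator 1) ((Ico (2 : ℝ) 3).indicator (1 : ℝ → ℝ)),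
    integral_sub i3 (integrable_const _), int_sq, integral_indicator_one measurableSet_Ico,
    integral_indicator_one measurableSet_Ico] at h2
  rw [k2, covariance_eq_sub (memLp_cone τ) (memLp_sq.comp_snd g1), int_snd, mul_one]
  refine le_trans ?_ h2
  have a1 := g1_ge h0 (by linarith : τ ≤ 2 * τ) (by linarith)
  have a2 := g1_ge (a := 2) (b := 3) (by norm_num) (by norm_num) le_rfl
  have := mul_le_mul a1 a2 (by have := c3_pos; positivity) measureReal_nonneg
  simp only [integral_const, probReal_univ, smul_eq_mul]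
  nlinarith

variable {D : ℕ}

lemma memLp_mul (a b : ES D) : MemLp (fun W => ⟪a, W⟫ * ⟪b, W⟫) 2 (gam D) := by
  have := holder
  exact (IsGaussian.memLp_dual (gam D) (innerSL ℝ b) 4 (by simp)).mul
    (IsGaussian.memLp_dual (gam D) (innerSL ℝ a) 4 (by simp))

lemma law {z w : ES D} (hz : ‖z‖ = 1) (hw : ‖w‖ = 1) (h : ⟪z, w⟫ = 0) :
    (gam D).map (fun W => (⟪z, W⟫, ⟪w, W⟫)) = g2 := by
  have h1 : IndepFun (fun W => ⟪z, W⟫) (fun W => ⟪w, W⟫) (gam D) :=
    HasGaussianLaw.indepFun_of_covariance_eq_zero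
      (IsGaussian.hasGaussianLaw_id.map_fun ((innerSL ℝ z).prod (innerSL ℝ w)))
      (by rw [cov_inner, h])
  rw [(indepFun_iff_map_prod_eq_prod_map_map (measurable_inner' z).aemeasurable
    (measurable_inner' w).aemeasurable).1 h1, map_inner, map_inner, hz, hw]
  simp

/-- the covariance as a bilinear form -/
def bil {F : ES D → ℝ} (hF : MemLp F 2 (gam D)) : ES D →ₗ[ℝ] ES D →ₗ[ℝ] ℝ :=
  LinearMap.mk₂ ℝ (fun a b => cov[F, fun W => ⟪a, W⟫ * ⟪b, W⟫; gam D])
    (fun a a' b => by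
      simp only [inner_add_left, add_mul]
      exact covariance_add_right hF (memLp_mul a b) (memLp_mul a' b))
    (fun c a b => by
      simp only [real_inner_smul_left, mul_assoc, covariance_const_mul_right, smul_eq_mul])
    (fun a b b' => by
      simp only [inner_add_left, mul_add]
      exact covariance_add_right hF (memLp_mul a b) (memLp_mul a b'))
    (fun c a b => by
      simp only [real_inner_smul_left, mul_left_comm _ c, covariance_const_mul_right, smul_eq_mul])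

lemma bil_apply {F : ES D → ℝ} (hF : MemLp F 2 (gam D)) (a b : ES D) :
    bil hF a b = cov[F, fun W => ⟪a, W⟫ * ⟪b, W⟫; gam D] := rfl

lemma bil_comm {F : ES D → ℝ} (hF : MemLp F 2 (gam D)) (a b : ES D) : bil hF a b = bil hF b a := by
  simp only [bil_apply, mul_comm]

lemma refl_self (u W : ES D) : ⟪u, (ℝ ∙ u)ᗮ.reflection W⟫ = -⟪u, W⟫ := by
  rw [← Submodule.reflection_symm, ← LinearIsometryEquiv.inner_map_eq_flip,
    Submodule.reflection_orthogonalComplement_singleton_eq_neg, inner_neg_left]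

lemma refl_orth {u w : ES D} (h : ⟪u, w⟫ = 0) (W : ES D) :
    ⟪w, (ℝ ∙ u)ᗮ.reflection W⟫ = ⟪w, W⟫ := by
  rw [← Submodule.reflection_symm, ← LinearIsometryEquiv.inner_map_eq_flip,
    Submodule.reflection_mem_subspace_eq_self
      (Submodule.mem_orthogonal_singleton_iff_inner_right.2 h)]

lemma bil_refl {F : ES D → ℝ} (hF : MemLp F 2 (gam D)) {u w : ES D} (h : ⟪u, w⟫ = 0)
    (hu : ∀ W, F ((ℝ ∙ u)ᗮ.reflection W) = F W) : bil hF u w = 0 := by
  have e := stdGaussian_map (ℝ ∙ u)ᗮ.reflection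
  have h1 := covariance_map_fun (μ := gam D) (Z := (ℝ ∙ u)ᗮ.reflection) (X := F)
    (Y := fun W => ⟪u, W⟫ * ⟪w, W⟫) (by rw [e]; exact hF.1) (by rw [e]; exact (memLp_mul u w).1)
    (by fun_prop)
  simp only [e, hu, refl_self, refl_orth h, neg_mul, covariance_fun_neg_right] at h1
  rw [bil_apply]
  linarith

lemma cov_cone (τ : ℝ) {z w : ES D} (hz : ‖z‖ = 1) (hw : ‖w‖ = 1) (h : ⟪z, w⟫ = 0) (a b : ES D) :
    cov[fun W => cone τ (⟪z, W⟫, ⟪w, W⟫), fun W => ⟪a, W⟫ * ⟪b, W⟫; gam D] =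
      k1 τ * (⟪a, z⟫ * ⟪b, z⟫) + k2 τ * (⟪a, w⟫ * ⟪b, w⟫) := by
  have hm : Measurable fun W : ES D => (⟪z, W⟫, ⟪w, W⟫) := by fun_prop
  have hF : MemLp (fun W => cone τ (⟪z, W⟫, ⟪w, W⟫)) 2 (gam D) :=
    memLp_bdd ((measurable_cone τ).comp hm) 1 fun _ => abs_cone_le _ _
  have h' : ⟪w, z⟫ = 0 := by rw [real_inner_comm, h]
  have e1 : bil hF z z = k1 τ := by
    rw [k1, ← law hz hw h, covariance_map_fun (measurable_cone τ).aestronglyMeasurable
      (by fun_prop) hm.aemeasurable, bil_apply]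
  have e2 : bil hF w w = k2 τ := by
    rw [k2, ← law hz hw h, covariance_map_fun (measurable_cone τ).aestronglyMeasurable
      (by fun_prop) hm.aemeasurable, bil_apply]
  have e3 : bil hF w z = 0 := bil_refl hF h' fun W => by simp [cone, refl_self, refl_orth h']
  have e4 : ∀ x y, ⟪x, z⟫ = 0 → ⟪x, w⟫ = 0 → ⟪x, y⟫ = 0 → bil hF x y = 0 :=
    fun x y h1 h2 h3 => bil_refl hF h3 fun W => by rw [refl_orth h1, refl_orth h2]
  have e5 : ∀ x y, ⟪x, z⟫ = 0 → ⟪x, w⟫ = 0 → ⟪y, z⟫ = 0 → ⟪y, w⟫ = 0 → bil hF x y = 0 := by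
    intro x y h1 h2 h3 h4
    have hi : IndepFun (fun W i => ⟪![x, y] i, W⟫) (fun W i => ⟪![z, w] i, W⟫) (gam D) :=
      HasGaussianLaw.indepFun_of_covariance_eval
        (IsGaussian.hasGaussianLaw_id.map_fun
          ((ContinuousLinearMap.pi fun i => innerSL ℝ (![x, y] i)).prod
            (ContinuousLinearMap.pi fun i => innerSL ℝ (![z, w] i))))
        fun i j => by
          rw [cov_inner]
          fin_cases i <;> fin_cases j <;> assumption
    exact (hi.symm.comp (φ := fun u : Fin 2 → ℝ => cone τ (u 0, u 1))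
      (ψ := fun u : Fin 2 → ℝ => u 0 * u 1)
      ((measurable_cone τ).comp (by fun_prop)) (by fun_prop)).covariance_eq_zero hF (memLp_mul x y)
  have dec : ∀ a : ES D, ∃ x, ⟪x, z⟫ = 0 ∧ ⟪x, w⟫ = 0 ∧ a = ⟪a, z⟫ • z + ⟪a, w⟫ • w + x :=
    fun a => ⟨a - (⟪a, z⟫ • z + ⟪a, w⟫ • w), by
      simp [inner_sub_left, inner_add_left, real_inner_smul_left, hz, h'], by
      simp [inner_sub_left, inner_add_left, real_inner_smul_left, hw, h], by abel⟩
  obtain ⟨x, x1, x2, hx⟩ := dec a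
  obtain ⟨y, y1, y2, hy⟩ := dec b
  rw [← bil_apply hF]
  generalize ⟪a, z⟫ = α at hx ⊢
  generalize ⟪a, w⟫ = β at hx ⊢
  generalize ⟪b, z⟫ = α' at hy ⊢
  generalize ⟪b, w⟫ = β' at hy ⊢
  simp only [hx, hy, map_add, map_smul, LinearMap.add_apply, LinearMap.smul_apply, smul_eq_mul,
    e1, e2, e3, bil_comm hF z w, bil_comm hF z y, bil_comm hF w y, e4 x z x1 x2 x1,
    e4 x w x1 x2 x2, e4 y z y1 y2 y1, e4 y w y1 y2 y2, e5 x y x1 x2 y1 y2]
  ring

theorem rowTHIN : OfTHIN := by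
  intro _ _
  refine ⟨c3 ^ 2, by have := c3_pos; positivity, fun D v v' hv hv' hne hle => ?_⟩
  set P := ‖v + v'‖ with hP
  set M := ‖v' - v‖ with hM
  have M0 : 0 < M := norm_pos_iff.2 (sub_ne_zero.2 hne)
  have hPM : P ^ 2 + M ^ 2 = 4 := by
    rw [hP, hM, norm_add_sq_real, norm_sub_sq_real, hv, hv', real_inner_comm]
    ring
  have P1 : 1 ≤ P := by
    by_contra h
    nlinarith [norm_nonneg (v + v')]
  have P2 : P ≤ 2 := by nlinarith
  have P0 : 0 < P := by linarith
  have t0 : 0 ≤ M / P := by positivity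
  have t1 : M / P ≤ 1 := (div_le_one P0).2 (by linarith)
  have hz : ‖P⁻¹ • (v + v')‖ = 1 := by
    rw [norm_smul, norm_inv, Real.norm_of_nonneg P0.le, inv_mul_cancel₀ P0.ne']
  have hw : ‖M⁻¹ • (v' - v)‖ = 1 := by
    rw [norm_smul, norm_inv, Real.norm_of_nonneg M0.le, inv_mul_cancel₀ M0.ne']
  have h : ⟪P⁻¹ • (v + v'), M⁻¹ • (v' - v)⟫ = 0 := by
    rw [real_inner_smul_left, real_inner_smul_right, inner_add_left, inner_sub_right,
      inner_sub_right, real_inner_self_eq_norm_sq, real_inner_self_eq_norm_sq, hv, hv',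
      real_inner_comm]
    ring
  have e : sc v v' = fun W => cone (M / P) (⟪P⁻¹ • (v + v'), W⟫, ⟪M⁻¹ • (v' - v), W⟫) := by
    funext W
    simp only [sc, chg, cone, real_inner_smul_left, inner_add_left, inner_sub_left]
    refine if_congr ?_ rfl rfl
    rw [← sub_neg (b := (M / P) ^ 2 * _), show (P⁻¹ * (⟪v, W⟫ + ⟪v', W⟫)) ^ 2 -
      (M / P) ^ 2 * (M⁻¹ * (⟪v', W⟫ - ⟪v, W⟫)) ^ 2 = 4 / P ^ 2 * (⟪v, W⟫ * ⟪v', W⟫) by
        field_simp; ring]
    have : 0 < 4 / P ^ 2 := by positivity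
    exact ⟨mul_neg_of_pos_of_neg this, fun h => by
      by_contra h'
      exact absurd h (not_lt.2 (mul_nonneg this.le (not_lt.1 h')))⟩
  refine ⟨k1 (M / P) / P ^ 2, k2 (M / P) / M ^ 2, ?_, ?_, fun a b => ?_⟩
  · rw [abs_div, abs_of_pos (by positivity : 0 < P ^ 2), div_le_iff₀ (by positivity)]
    refine (abs_k1 t0 t1).trans ?_
    rw [← mul_div_assoc, div_le_iff₀ P0]
    have : 2 ≤ P ^ 2 * P := by nlinarith
    nlinarith
  · have := le_k2 t0 t1
    rw [show k2 (M / P) / M ^ 2 * M = k2 (M / P) / M by field_simp, le_div_iff₀ M0]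
    refine le_trans ?_ this
    rw [← mul_div_assoc, le_div_iff₀ P0]
    nlinarith [mul_pos (pow_pos c3_pos 2) M0]
  · rw [e, cov_cone _ hz hw h]
    simp only [real_inner_smul_right]
    field_simp

end

end Pool.Agent.MP_f6b137_pr.H80
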